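import Mathlib
import Pool.Agent.H9.MP76760eDefs
import Pool.Agent.H9.MP76760eProof

set_option autoImplicit false

namespace Pool.Agent.Results.MP_76760e_an.NotPlanar

open Pool.Agent.H9.MP76760e

/-- Not every `C(X)` is planar-admissible: for a nonempty compact Hausdorff space `X` some finite
subset of `ℤ²` has the `ℂ`-extension property but not the `C(X)`-extension property. -/
theorem result : ∃ (X : Type) (_ : TopologicalSpace X) (_ : CompactSpace X) (_ : T2Space X)
    (_ : Nonempty X) (S : Finset (ℤ × ℤ)), HasExt ℂ S ∧ ¬ HasExt C(X, ℂ) S :=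
  ⟨XX, inferInstance, inferInstance, inferInstance, ⟨⟨0, zero_mem'⟩⟩, LL, hasExt_complex,
    not_hasExt⟩

end Pool.Agent.Results.MP_76760e_an.NotPlanar
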